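import Pool.Agent.L0h32.UX.Stm

/-!
# Project UX: PTH, a reachable source can be tested
-/

set_option autoImplicit false
set_option linter.all false

namespace Pool.Agent.L0h34.UX

open Relation
open Pool.Agent.L0h32.UX
open Pool.Agent.H630R2.LA (LimAut Sym Cfg Step init initTape WS lrel bitS ix nr Ann keep bit_ann)

section runs

variable {A : Type} {h : ℕ} {rel : A → Fin (2 ^ h) → Fin (2 ^ h) → Bool} {p0 : Fin (2 ^ h)}
  {facc : Fin (2 ^ h) → Bool} {K : ℕ} {W : ℕ → ℕ → Fin (2 ^ h) → Fin (2 ^ h) → ℕ}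
  {τ : ℕ → Sym (WS A)} {m : Mem} {t s : ℕ}

theorem stepL {n : ℕ} {q q' : St h} {x : ℕ} (hx : x + 1 ≤ n)
    (ht : Tr h rel p0 facc K W q (τ (x + 1)) q' (keep (τ (x + 1))) false) :
    RS h rel p0 facc K W τ n (q, x + 1) (q', x) :=
  ⟨hx, false, ht, fun hh => absurd hh (by simp), fun _ => rfl⟩

theorem stepR {n : ℕ} {q q' : St h} {x : ℕ} (hx : x ≤ n)
    (ht : Tr h rel p0 facc K W q (τ x) q' (keep (τ x)) true) :
    RS h rel p0 facc K W τ n (q, x) (q', x + 1) :=
  ⟨hx, true, ht, fun _ => rfl, fun hh => absurd hh (by simp)⟩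

theorem runA (j : ℕ) : ∀ i, s + i + j ≤ t + 1 →
    ReflTransGen (RS h rel p0 facc K W τ (t + 1)) (.rA m (i + j), s + (i + j)) (.rA m i, s + i) := by
  induction j with
  | zero => intro i _; exact ReflTransGen.refl
  | succ j ih =>
    intro i h2
    refine ReflTransGen.head (b := (.rA m (i + j), s + (i + j))) ?_ (ih i (by omega))
    exact stepL (x := s + (i + j)) (by omega) (Tr.aL m (i + j) _)

theorem runB (p : Fin (2 ^ h)) (j : ℕ) : s + j ≤ t + 1 →
    ReflTransGen (RS h rel p0 facc K W τ (t + 1)) (.rB m p j, s + j) (.rB m p 0, s) := by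
  induction j with
  | zero => intro _; exact ReflTransGen.refl
  | succ j ih =>
    intro h2
    refine ReflTransGen.head (b := (.rB m p j, s + j)) ?_ (ih (by omega))
    exact stepL (x := s + j) (by omega) (Tr.bL m p j _)

theorem runC {w : List A} (hlr : ∀ j < m.l, ∀ p p', Ed h rel w s j p p' →
    lrel h rel (τ (s + j + 1)) p p' = true) (j : ℕ) : ∀ (q : Fin (2 ^ h)) (v : ℕ), j ≤ m.l →
    s + j ≤ t → Pw h rel p0 W w s m.i j q v → ∃ p, nr h rel p0 w s p ∧
    ReflTransGen (RS h rel p0 facc K W τ (t + 1)) (.rC m p 0 1, s + 1)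
      (.rC m q v (j + 1), s + j + 1) := by
  induction j with
  | zero =>
    intro q v _ _ hp
    obtain ⟨hq, hv⟩ : nr h rel p0 w s q ∧ v = 0 := hp
    subst hv
    exact ⟨q, hq, ReflTransGen.refl⟩
  | succ j ih =>
    intro q v h1 h2 hp
    obtain ⟨p', u, hp', he, hv⟩ : ∃ p' u, Pw h rel p0 W w s m.i j p' u ∧ Ed h rel w s j p' q ∧
      v = u + W m.i j p' q := hp
    obtain ⟨p, hp, h3⟩ := ih p' u (by omega) (by omega) hp'
    refine ⟨p, hp, h3.tail ?_⟩
    subst hv
    exact stepR (x := s + j + 1) (by omega) (Tr.cS m p' q u j _ (by omega) (hlr j (by omega) p' q he))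

theorem runR (j : ℕ) : ∀ (i : ℕ), i + j = EE h m.x m.fin → s + i + j ≤ t + 1 →
    ReflTransGen (RS h rel p0 facc K W τ (t + 1)) (.rR m i, s + i) (.rR m (i + j), s + i + j) := by
  induction j with
  | zero => intro i _ _; exact ReflTransGen.refl
  | succ j ih =>
    intro i h1 h2
    have h3 := ih (i + 1) (by omega) (by omega)
    have e1 : i + 1 + j = i + (j + 1) := by omega
    have e2 : s + (i + 1) + j = s + i + (j + 1) := by omega
    rw [e1, e2] at h3
    refine ReflTransGen.head (b := (.rR m (i + 1), s + (i + 1))) ?_ h3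
    exact stepR (x := s + i) (by omega) (Tr.rS m i _ (by omega))

end runs

/-- The geometry of the base block. -/
theorem geo {h t len : ℕ} {x : Wr} {fin : Bool} {l : ℕ} (hf : x.first = decide (t < 2 ^ h))
    (hk : x.k = t % 2 ^ h) (h1 : fin = false → t < len) (h2 : fin = true → t = len)
    (hl : l < LL h x fin) :
    EE h x fin ≤ t + 1 ∧ l + 1 ≤ EE h x fin ∧
      ((bas x fin = true ∧ t + 1 - EE h x fin = 0) ∨
        (bas x fin = false ∧ 2 ^ h ≤ EE h x fin ∧ ∃ j, t + 1 - EE h x fin = j * 2 ^ h ∧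
          j * 2 ^ h + 2 ^ h ≤ min (t + 1) len)) := by
  have hpos : 0 < 2 ^ h := Nat.two_pow_pos h
  have hkl : t % 2 ^ h < 2 ^ h := Nat.mod_lt _ hpos
  have hdm : 2 ^ h * (t / 2 ^ h) + t % 2 ^ h = t := Nat.div_add_mod t (2 ^ h)
  have hdm' : t / 2 ^ h * 2 ^ h + t % 2 ^ h = t := by rw [Nat.mul_comm]; exact hdm
  by_cases hlt : t < 2 ^ h
  · have hfi : x.first = true := by rw [hf]; exact decide_eq_true hlt
    have hkt : x.k = t := by rw [hk, Nat.mod_eq_of_lt hlt]
    cases fin with
    | true =>
      have e1 : EE h x true = t + 1 := by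
        unfold EE
        rw [if_pos rfl, if_pos hfi, hkt]
      have e2 : LL h x true = t := by
        unfold LL
        rw [if_pos rfl, if_pos hfi, hkt]
      rw [e2] at hl
      refine ⟨by omega, by omega, Or.inl ⟨by simp [bas, hfi], by omega⟩⟩
    | false =>
      have h3 := h1 rfl
      by_cases hk1 : t + 1 < 2 ^ h
      · have e2 : LL h x false = 0 := by
          unfold LL
          rw [if_neg (by simp), if_pos ⟨hfi, by omega⟩]
        omega
      · have e1 : EE h x false = 2 ^ h := by
          unfold EE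
          rw [if_neg (by simp), if_neg (by omega)]
        have e2 : LL h x false = 2 ^ h := by
          unfold LL
          rw [if_neg (by simp), if_neg (fun hh => by omega)]
        refine ⟨by omega, by omega, Or.inr ⟨by simp [bas], by omega, 0, by omega, ?_⟩⟩
        simp only [Nat.zero_mul, Nat.zero_add, le_min_iff]
        omega
  · have hfi : x.first = false := by rw [hf]; exact decide_eq_false hlt
    have hnf : ¬ x.first = true := by simp [hfi]
    have hge : 2 ^ h ≤ t := by omega
    have hjpos : 1 ≤ t / 2 ^ h := (Nat.one_le_div_iff hpos).2 hge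
    obtain ⟨j, hj⟩ : ∃ j, t / 2 ^ h = j + 1 := ⟨t / 2 ^ h - 1, by omega⟩
    have hjm : (j + 1) * 2 ^ h = j * 2 ^ h + 2 ^ h := by ring
    rw [hj, hjm] at hdm'
    cases fin with
    | true =>
      have h3 := h2 rfl
      have e1 : EE h x true = 2 ^ h + x.k + 1 := by
        unfold EE
        rw [if_pos rfl, if_neg hnf]
      have e2 : LL h x true = 2 ^ h + x.k := by
        unfold LL
        rw [if_pos rfl, if_neg hnf]
      refine ⟨by omega, by omega, Or.inr ⟨by simp [bas, hfi], by omega, j, by omega, ?_⟩⟩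
      rw [le_min_iff]
      omega
    | false =>
      have h3 := h1 rfl
      have e2 : LL h x false = 2 ^ h := by
        unfold LL
        rw [if_neg (by simp), if_neg (fun hh => hnf hh.1)]
      by_cases hk1 : x.k + 1 < 2 ^ h
      · have e1 : EE h x false = 2 ^ h + x.k + 1 := by
          unfold EE
          rw [if_neg (by simp), if_pos hk1, if_neg hnf]
        refine ⟨by omega, by omega, Or.inr ⟨by simp [bas], by omega, j, by omega, ?_⟩⟩
        rw [le_min_iff]
        omega
      · have e1 : EE h x false = 2 ^ h := by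
          unfold EE
          rw [if_neg (by simp), if_neg hk1]
        refine ⟨by omega, by omega, Or.inr ⟨by simp [bas], by omega, j + 1, by omega, ?_⟩⟩
        rw [le_min_iff]
        omega

theorem t_PTH : S_PTH := by
  intro A h rel p0 facc K W w t τ ht hA m v hM hl hy hz hp
  have hM' := hM
  obtain ⟨hW, hfn, hft, -⟩ := hM'
  obtain ⟨hfi, hk, -⟩ := hW
  obtain ⟨g1, g2, g3⟩ := geo (len := w.length) hfi hk hfn hft hl
  obtain ⟨s, hs⟩ : ∃ s, bt h t m = s := ⟨_, rfl⟩
  have hs' : t + 1 - EE h m.x m.fin = s := hs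
  rw [hs] at hp ⊢
  rw [hs'] at g3
  -- the letters
  have hlr : ∀ j < m.l, ∀ p p', Ed h rel w s j p p' → lrel h rel (τ (s + j + 1)) p p' = true := by
    intro j hj p p' he
    obtain ⟨a, ha, har⟩ := he
    have hlt : s + j < w.length := by
      by_contra hcon
      rw [List.getElem?_eq_none (by omega)] at ha
      exact absurd ha (by simp)
    obtain ⟨a', b, ha', hτ, -⟩ := hA.2 (s + j) (by rw [lt_min_iff]; omega)
    rw [ha] at ha'
    have e : a = a' := Option.some.inj ha'
    subst e
    rw [hτ]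
    exact har
  obtain ⟨p, hpn, hC⟩ := runC (p0 := p0) (facc := facc) (K := K) (W := W) (τ := τ) (m := m) (t := t)
    (s := s) hlr m.l (ix h m.z) v le_rfl (by omega) hp
  -- to the beginning of the base block
  have hbase : ReflTransGen (RS h rel p0 facc K W τ (t + 1)) (.rA m (EE h m.x m.fin), t + 1)
      (.rB m p 0, s) := by
    rcases g3 with ⟨hb, h0⟩ | ⟨hb, hE, j, hj, hjl⟩
    · rw [h0] at hpn ⊢
      have hp' : p = p0 := hpn
      subst hp'
      obtain ⟨e, he⟩ : ∃ e, EE h m.x m.fin = 1 + e := ⟨EE h m.x m.fin - 1, by omega⟩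
      have h1 := runA (rel := rel) (p0 := p) (facc := facc) (K := K) (W := W) (τ := τ) (m := m)
        (s := 0) (t := t) e 1 (by omega)
      have e1 : 0 + (1 + e) = t + 1 := by omega
      rw [e1, ← he] at h1
      exact h1.tail (stepL (x := 0) (by omega) (Tr.aF m _ hb))
    · rw [hj] at hpn
      have hpl := p.isLt
      have hbit : bitS (τ (j * 2 ^ h + 1 + p.val)) = true :=
        (bit_ann hA j p (by omega)).2 hpn
      obtain ⟨e, he⟩ : ∃ e, EE h m.x m.fin = p.val + 1 + e := ⟨EE h m.x m.fin - (p.val + 1), by omega⟩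
      have h1 := runA (rel := rel) (p0 := p0) (facc := facc) (K := K) (W := W) (τ := τ) (m := m)
        (s := s) (t := t) e (p.val + 1) (by omega)
      have e1 : s + (p.val + 1 + e) = t + 1 := by omega
      rw [e1, ← he] at h1
      have h2 := runB (rel := rel) (p0 := p0) (facc := facc) (K := K) (W := W) (τ := τ) (m := m)
        (s := s) (t := t) p p.val (by omega)
      refine (h1.tail ?_).trans h2
      have h3 : Tr h rel p0 facc K W (.rA m (p.val + 1)) (τ (s + p.val + 1))
          (.rB m (ix h p.val) p.val) (keep (τ (s + p.val + 1))) false := by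
        apply Tr.aC m p.val _ hb hpl
        rw [hj]
        have e3 : j * 2 ^ h + p.val + 1 = j * 2 ^ h + 1 + p.val := by omega
        rw [e3]
        exact hbit
      have e4 : ix h p.val = p := by
        apply Fin.ext
        exact Nat.mod_eq_of_lt hpl
      rw [e4] at h3
      exact stepL (x := s + p.val) (by omega) h3
  have h0 : ReflTransGen (RS h rel p0 facc K W τ (t + 1)) (.hm m, t)
      (.rA m (EE h m.x m.fin), t + 1) :=
    ReflTransGen.single (stepR (by omega) (Tr.ask m _ hl hy hz))
  have h2 : ReflTransGen (RS h rel p0 facc K W τ (t + 1)) (.rB m p 0, s) (.rC m p 0 1, s + 1) :=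
    ReflTransGen.single (stepR (by omega) (Tr.b0 m p _))
  refine ((h0.trans hbase).trans h2).trans (ReflTransGen.trans hC ?_)
  rcases Nat.lt_or_ge (m.l + 1) (EE h m.x m.fin) with hlt | hge
  · obtain ⟨m', hm'⟩ : ∃ m', m' = yes h rel W m v (τ (s + m.l + 1)) := ⟨_, rfl⟩
    have h4 : ReflTransGen (RS h rel p0 facc K W τ (t + 1)) (.rC m (ix h m.z) v (m.l + 1),
        s + m.l + 1) (.rR m' (m.l + 2), s + m.l + 1 + 1) := by
      rw [hm']
      exact ReflTransGen.single (stepR (by omega) (Tr.cR m _ v m.l _ rfl rfl hlt))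
    have hE' : EE h m'.x m'.fin = EE h m.x m.fin := by rw [hm']; rfl
    obtain ⟨e, he⟩ : ∃ e, EE h m.x m.fin = m.l + 2 + e := ⟨EE h m.x m.fin - (m.l + 2), by omega⟩
    have h5 := runR (rel := rel) (p0 := p0) (facc := facc) (K := K) (W := W) (τ := τ) (m := m')
      (s := s) (t := t) e (m.l + 2) (by rw [hE', he]) (by omega)
    have e3 : s + (m.l + 2) + e = t + 1 := by omega
    have e4 : s + (m.l + 2) = s + m.l + 1 + 1 := by omega
    rw [← he, e3, e4] at h5
    rw [← hm']
    refine (h4.trans h5).tail ?_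
    exact stepL (by omega) (Tr.rE m' _ _ (by rw [hE']))
  · have e2 : s + m.l = t := by omega
    rw [e2]
    exact ReflTransGen.single (stepL (by omega) (Tr.cD m _ v m.l _ rfl rfl (by omega)))

end Pool.Agent.L0h34.UX

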